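import Pool.Agent.H36.RP.Targets

/-!
Row APF of rp_modules (MP_c59857_nt): approximation by continuous local functions.
-/

set_option autoImplicit false

open MeasureTheory ProbabilityTheory Filter Topology Finset

namespace Pool.Agent.H17.RP

open Pool.Agent.H89.MT (I1 X pt z1 IsMult)
open Pool.Agent.H36.RP

/-- the window of the coordinates with index in `[-H, H]` -/
private def win (H : ℕ) (x : X) : X := fun k => if |k| ≤ (H : ℤ) then x k else z1

private lemma win_cont (H : ℕ) : Continuous (win H) := by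
  refine continuous_pi fun k => ?_
  unfold win
  by_cases h : |k| ≤ (H : ℤ)
  · simp only [if_pos h]
    exact continuous_apply k
  · simp only [if_neg h]
    exact continuous_const

private lemma win_lim (x : X) : Tendsto (fun H : ℕ => win H x) atTop (𝓝 x) := by
  rw [tendsto_pi_nhds]
  intro k
  refine tendsto_const_nhds.congr' ?_
  filter_upwards [eventually_ge_atTop k.natAbs] with H hH
  have h : |k| ≤ (H : ℤ) := by
    rw [Int.abs_eq_natAbs]
    exact_mod_cast hH
  unfold win
  rw [if_pos h]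

theorem pf_APF : T_APF := by
  intro κ _ g C hg hC ε hε
  have hgL : MemLp g 2 κ :=
    MemLp.of_bound hg.aestronglyMeasurable C (Filter.Eventually.of_forall fun x => by
      rw [Real.norm_eq_abs]
      exact hC x)
  obtain ⟨φ, h1, h2⟩ := hgL.exists_boundedContinuous_eLpNorm_sub_le (by norm_num)
    (ε := ENNReal.ofReal (√(ε / 2))) (by
      have h0 : 0 < √(ε / 2) := Real.sqrt_pos.2 (by positivity)
      exact (ENNReal.ofReal_pos.2 h0).ne')
  have h3 : ∫ x, (g x - φ x) ^ 2 ∂κ ≤ ε / 2 := by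
    have h4 := (hgL.sub h2).eLpNorm_eq_integral_rpow_norm (by norm_num) (by norm_num)
    rw [h4] at h1
    have h5 := (ENNReal.ofReal_le_ofReal_iff (Real.sqrt_nonneg _)).1 h1
    have h6 : ∫ x, ‖(g - (φ : X → ℝ)) x‖ ^ (ENNReal.toReal 2) ∂κ = ∫ x, (g x - φ x) ^ 2 ∂κ := by
      refine integral_congr_ae (Filter.Eventually.of_forall fun x => ?_)
      simp only [Pi.sub_apply, ENNReal.toReal_ofNat, Real.norm_eq_abs]
      rw [show ((2 : ℝ)) = ((2 : ℕ) : ℝ) by norm_num, Real.rpow_natCast, sq_abs]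
    rw [h6, ENNReal.toReal_ofNat] at h5
    have h7 : 0 ≤ ∫ x, (g x - φ x) ^ 2 ∂κ := integral_nonneg fun x => sq_nonneg _
    rw [show ((2 : ℝ)⁻¹) = 1 / 2 by norm_num, ← Real.sqrt_eq_rpow] at h5
    exact (Real.sqrt_le_sqrt_iff (by positivity)).1 h5
  have h4 : Tendsto (fun H : ℕ => ∫ x, (g x - φ (win H x)) ^ 2 ∂κ) atTop
      (𝓝 (∫ x, (g x - φ x) ^ 2 ∂κ)) := by
    refine tendsto_integral_of_dominated_convergence (fun _ => (C + ‖φ‖) ^ 2) ?_ ?_ ?_ ?_
    · intro H
      exact ((hg.sub ((φ.continuous.comp (win_cont H)).measurable)).pow_const 2).aestronglyMeasurable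
    · exact integrable_const _
    · intro H
      refine Filter.Eventually.of_forall fun x => ?_
      have e1 := hC x
      have e2 : |φ (win H x)| ≤ ‖φ‖ := by
        rw [← Real.norm_eq_abs]
        exact φ.norm_coe_le_norm _
      have e3 : |g x - φ (win H x)| ≤ C + ‖φ‖ := (abs_sub _ _).trans (add_le_add e1 e2)
      rw [Real.norm_eq_abs, abs_pow]
      exact pow_le_pow_left₀ (abs_nonneg _) e3 2
    · refine Filter.Eventually.of_forall fun x => ?_
      have e1 : Tendsto (fun H : ℕ => φ (win H x)) atTop (𝓝 (φ x)) :=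
        (φ.continuous.tendsto x).comp (win_lim x)
      exact (tendsto_const_nhds.sub e1).pow 2
  have h5 : ∀ᶠ H : ℕ in atTop, ∫ x, (g x - φ (win H x)) ^ 2 ∂κ < ε :=
    h4.eventually_lt_const (by linarith)
  obtain ⟨H, hH⟩ := h5.exists
  refine ⟨fun x => φ (win H x), H, φ.continuous.comp (win_cont H), ?_, hH.le⟩
  intro x x' hxx
  show φ (win H x) = φ (win H x')
  congr 1
  funext k
  unfold win
  by_cases h : |k| ≤ (H : ℤ)
  · rw [if_pos h, if_pos h, hxx k h]
  · rw [if_neg h, if_neg h]

end Pool.Agent.H17.RP
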