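import Pool.Agent.H36.RP.Targets

/-!
# Row IND: conditional independence of the coordinates given the remote past
-/

set_option autoImplicit false

open MeasureTheory ProbabilityTheory Filter Topology Finset

namespace Pool.Agent.H17.RP

open Pool.Agent.H89.MT (I1 X pt z1 IsMult)
open Pool.Agent.H36.RP

theorem meas_coord {i q : ℤ} (h : i ≤ q) {B : Set I1} (hB : MeasurableSet B) :
    MeasurableSet[past q] ((fun x : X => x i) ⁻¹' B) := by
  have h1 : MeasurableSpace.comap (fun x : X => x i) inferInstance ≤ past q :=
    le_iSup_of_le i (le_iSup_of_le h le_rfl)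
  exact h1 _ ⟨B, hB, rfl⟩

/-- IND. Conditional independence given the remote past. -/
theorem pf_IND : T_IND := by
  intro κ _ hψ
  rw [iCondIndepFun_iff_condExp_inter_preimage_eq_mul _ _ (fun n => measurable_pi_apply n)]
  intro T B hB
  classical
  induction T using Finset.induction_on_max with
  | empty =>
    have e : (⋂ i ∈ (∅ : Finset ℤ), (fun x : X => x i) ⁻¹' B i) = Set.univ := by simp
    rw [e, Set.indicator_univ, condExp_const remote_le, Finset.prod_empty]
    exact Filter.EventuallyEq.rfl
  | insert a s hs ih =>
    have ih' := ih fun i hi => hB i (Finset.mem_insert_of_mem hi)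
    have hBa := hB a (Finset.mem_insert_self a s)
    have has : a ∉ s := fun h => lt_irrefl _ (hs a h)
    -- the sets
    set A : Set X := ⋂ i ∈ s, (fun x : X => x i) ⁻¹' B i with hAdef
    set E : Set X := (fun x : X => x a) ⁻¹' B a with hEdef
    have hAm : MeasurableSet[past (a - 1)] A := by
      refine Finset.measurableSet_biInter s fun i hi => ?_
      exact meas_coord (by have := hs i hi; omega) (hB i (Finset.mem_insert_of_mem hi))
    have hAm' : MeasurableSet A := past_le _ _ hAm
    have hEm : MeasurableSet E := measurable_pi_apply a hBa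
    have hAE : (⋂ i ∈ insert a s, (fun x : X => x i) ⁻¹' B i) = E ∩ A := by
      rw [Finset.set_biInter_insert]
    have hprod : (E ∩ A).indicator (fun _ => (1 : ℝ)) =
        A.indicator (fun _ => (1 : ℝ)) * E.indicator (fun _ => (1 : ℝ)) := by
      funext x
      by_cases h1 : x ∈ A <;> by_cases h2 : x ∈ E <;> simp [h1, h2]
    have hiA : Integrable (A.indicator (fun _ => (1 : ℝ))) κ :=
      (integrable_const (1 : ℝ)).indicator hAm'
    have hiE : Integrable (E.indicator (fun _ => (1 : ℝ))) κ :=
      (integrable_const (1 : ℝ)).indicator hEm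
    have hiAE : Integrable (A.indicator (fun _ => (1 : ℝ)) * E.indicator (fun _ => (1 : ℝ))) κ := by
      rw [← hprod]
      exact (integrable_const (1 : ℝ)).indicator (hEm.inter hAm')
    -- the hypothesis for the indicator of `B a`
    have h1 : κ[E.indicator (fun _ => (1 : ℝ)) | past (a - 1)] =ᵐ[κ]
        κ[E.indicator (fun _ => (1 : ℝ)) | remote] := by
      have h2 := hψ a ((B a).indicator fun _ => (1 : ℝ)) (measurable_const.indicator hBa) (by
        intro b
        by_cases hb : b ∈ B a <;> simp [hb])
      exact h2
    have h2 : κ[A.indicator (fun _ => (1 : ℝ)) * E.indicator (fun _ => (1 : ℝ)) | past (a - 1)]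
        =ᵐ[κ] A.indicator (fun _ => (1 : ℝ)) * κ[E.indicator (fun _ => (1 : ℝ)) | remote] := by
      refine (condExp_mul_of_stronglyMeasurable_left
        (stronglyMeasurable_const.indicator hAm) hiAE hiE).trans ?_
      exact (Filter.EventuallyEq.rfl.mul h1)
    have hint : Integrable (A.indicator (fun _ => (1 : ℝ)) *
        κ[E.indicator (fun _ => (1 : ℝ)) | remote]) κ :=
      (integrable_condExp).congr h2
    have h3 : κ[A.indicator (fun _ => (1 : ℝ)) * E.indicator (fun _ => (1 : ℝ)) | remote]
        =ᵐ[κ] κ[A.indicator (fun _ => (1 : ℝ)) | remote] *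
          κ[E.indicator (fun _ => (1 : ℝ)) | remote] := by
      refine (condExp_condExp_of_le (remote_le_past (a - 1)) (past_le _)).symm.trans ?_
      refine (condExp_congr_ae h2).trans ?_
      exact condExp_mul_of_stronglyMeasurable_right stronglyMeasurable_condExp hint hiA
    rw [hAE, hprod, Finset.prod_insert has]
    refine h3.trans ?_
    refine (ih'.mul (Filter.EventuallyEq.refl _ _)).trans ?_
    rw [mul_comm]

end Pool.Agent.H17.RP
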