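import Pool.Agent.H82.RP.TC

/-!
# Row VSU: the sum of the densities over the sets of `s` positions, upper bound
-/

set_option autoImplicit false

open Finset Real ArithmeticFunction
open scoped Nat ArithmeticFunction.Moebius

namespace Pool.Agent.H17.RP

open Pool.Agent.H82.RP
open Pool.Agent.H31.MP (RS Rgh Pz Me Om UU)

theorem double_count {α : Type} [DecidableEq α] (T : Finset α) (s : ℕ) (F : Finset α → ℝ) :
    ((s : ℝ) + 1) * ∑ H ∈ T.powersetCard (s + 1), F H =
      ∑ H ∈ T.powersetCard s, ∑ i ∈ T \ H, F (insert i H) := by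
  have h1 : ((s : ℝ) + 1) * ∑ H ∈ T.powersetCard (s + 1), F H =
      ∑ H ∈ T.powersetCard (s + 1), ∑ _i ∈ H, F H := by
    rw [Finset.mul_sum]
    refine Finset.sum_congr rfl fun H hH => ?_
    rw [Finset.sum_const, (Finset.mem_powersetCard.1 hH).2, nsmul_eq_mul]
    push_cast
    ring
  rw [h1, Finset.sum_sigma', Finset.sum_sigma']
  refine Finset.sum_bij' (fun x _ => ⟨x.1.erase x.2, x.2⟩) (fun x _ => ⟨insert x.2 x.1, x.2⟩)
    ?_ ?_ ?_ ?_ ?_
  · rintro ⟨H, i⟩ hx
    rw [Finset.mem_sigma, Finset.mem_powersetCard] at hx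
    obtain ⟨⟨hH, hc⟩, hi⟩ := hx
    rw [Finset.mem_sigma, Finset.mem_powersetCard, Finset.mem_sdiff]
    refine ⟨⟨(Finset.erase_subset _ _).trans hH, ?_⟩, hH hi, Finset.notMem_erase _ _⟩
    rw [Finset.card_erase_of_mem hi, hc]
    rfl
  · rintro ⟨H, i⟩ hx
    rw [Finset.mem_sigma, Finset.mem_powersetCard, Finset.mem_sdiff] at hx
    obtain ⟨⟨hH, hc⟩, hiT, hi⟩ := hx
    rw [Finset.mem_sigma, Finset.mem_powersetCard]
    refine ⟨⟨Finset.insert_subset hiT hH, ?_⟩, Finset.mem_insert_self _ _⟩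
    show (insert i H).card = s + 1
    rw [Finset.card_insert_of_notMem hi]
    exact congrArg (· + 1) hc
  · rintro ⟨H, i⟩ hx
    rw [Finset.mem_sigma] at hx
    simp only [Finset.insert_erase hx.2]
  · rintro ⟨H, i⟩ hx
    rw [Finset.mem_sigma, Finset.mem_sdiff] at hx
    simp only [Finset.erase_insert hx.2.2]
  · rintro ⟨H, i⟩ hx
    rw [Finset.mem_sigma] at hx
    simp only [Finset.insert_erase hx.2]

theorem RpS_nonneg (y₀ e : ℕ) (S : Finset ℕ) : 0 ≤ RpS y₀ e S := by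
  unfold RpS
  refine Finset.prod_nonneg fun p hp => ?_
  rw [Finset.mem_filter] at hp
  have hp1 : (1 : ℝ) ≤ p := by exact_mod_cast (Nat.prime_of_mem_primeFactors hp.1).one_lt.le
  rw [inv_nonneg, sub_nonneg, div_le_one (by linarith)]
  exact hp1

theorem Q_nonneg (y₀ : ℕ) (z : ℝ) : 0 ≤ ∏ p ∈ Pz y₀ z, (1 - 1 / (p : ℝ)) := by
  refine Finset.prod_nonneg fun p hp => ?_
  unfold Pz at hp
  rw [Finset.mem_filter] at hp
  have hp1 : (1 : ℝ) ≤ p := by exact_mod_cast hp.2.1.one_lt.le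
  rw [sub_nonneg, div_le_one (by linarith)]
  exact hp1

theorem Me_nonneg (z : ℝ) : 0 ≤ Me z := by
  unfold Me
  refine Finset.prod_nonneg fun p hp => ?_
  rw [Finset.mem_filter] at hp
  have hp1 : (1 : ℝ) ≤ p := by exact_mod_cast hp.2.one_lt.le
  rw [sub_nonneg, div_le_one (by linarith)]
  exact hp1

theorem pw_inj {m : ℕ} (a : ℕ) : Function.Injective (pw a : Fin m → ℕ) := by
  intro i j h
  unfold pw at h
  exact Fin.ext (by omega)

theorem pf_VSU (h1 : T_VRI) (h2 : T_SAH) (hVV : Pool.Agent.H31.MP.T_VV) : T_VSU := by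
  intro K η hη
  obtain ⟨y₁, hy₁⟩ := h2 (2 * K) η hη
  refine ⟨max y₁ (4 * K + 4), fun y₀ hy₀ t δ H₀ ht hδ => ?_⟩
  have hya : y₁ ≤ y₀ := (le_max_left _ _).trans hy₀
  have hyb : 4 * K + 4 ≤ y₀ := (le_max_right _ _).trans hy₀
  obtain ⟨X₀, hX₀⟩ := hy₁ y₀ hya t H₀ ht
  refine ⟨max X₀ ((y₀ : ℝ) ^ (1 / δ)), fun X hX S₀ m a s T hS₀ hs hSH hamH htm hTA hdis => ?_⟩
  have hXa : X₀ ≤ X := (le_max_left _ _).trans hX
  have hXb : (y₀ : ℝ) ^ (1 / δ) ≤ X := (le_max_right _ _).trans hX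
  have hz : (y₀ : ℝ) ≤ X ^ δ := by
    have h3 : (y₀ : ℝ) = ((y₀ : ℝ) ^ (1 / δ)) ^ δ := by
      rw [← Real.rpow_mul (Nat.cast_nonneg _), one_div, inv_mul_cancel₀ hδ.ne', Real.rpow_one]
    rw [h3]
    exact Real.rpow_le_rpow (Real.rpow_nonneg (Nat.cast_nonneg _) _) hXb hδ.le
  set z : ℝ := X ^ δ with hzdef
  set Q : ℝ := ∏ p ∈ Pz y₀ z, (1 - 1 / (p : ℝ)) with hQ
  have hQ0 : 0 ≤ Q := Q_nonneg y₀ z
  have hMe0 : 0 ≤ Me z := Me_nonneg z
  have hQM : Q * (((primorial y₀).totient : ℝ) / primorial y₀) = Me z :=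
    (hVV 1 y₀ z (fun _ => 0) le_rfl (by omega) hz).1
  have hVS0 : ∀ S : Finset ℕ, S.card ≤ 2 * K → 0 ≤ VS y₀ z S := by
    intro S hS
    obtain ⟨e, he⟩ := Infinite.exists_notMem_finset S
    exact (h1 (2 * K) y₀ z S e hS (by omega) he).1.le
  -- one step
  have hpart : ∀ r, r + 1 ≤ K → ∀ H ∈ T.powersetCard r,
      ∑ i ∈ T \ H, VS y₀ z (S₀ ∪ ps a (insert i H)) ≤
        VS y₀ z (S₀ ∪ ps a H) * ((1 + η) * (m * Me z)) := by
    intro r hr H hH
    rw [Finset.mem_powersetCard] at hH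
    obtain ⟨hHT, hHc⟩ := hH
    set S : Finset ℕ := S₀ ∪ ps a H with hSdef
    have hScard : S.card ≤ 2 * K := by
      have h3 : S.card ≤ S₀.card + (ps a H).card := Finset.card_union_le _ _
      have h4 : (ps a H).card ≤ H.card := Finset.card_image_le
      omega
    have hSle : ∀ x ∈ S, (x : ℝ) ≤ H₀ * Real.log X := by
      intro x hx
      rw [hSdef, Finset.mem_union] at hx
      rcases hx with hx | hx
      · exact hSH x hx
      · unfold ps at hx
        obtain ⟨i, -, rfl⟩ := Finset.mem_image.1 hx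
        refine le_trans ?_ hamH
        have : pw a i ≤ a + m := by
          unfold pw
          have := i.2
          omega
        exact_mod_cast this
    have hV := hVS0 S hScard
    have hmem : ∀ i ∈ T \ H, pw a i ∉ S := by
      intro i hi
      rw [Finset.mem_sdiff] at hi
      rw [hSdef, Finset.mem_union, not_or]
      refine ⟨fun h => ?_, fun h => ?_⟩
      · exact (Finset.disjoint_left.1 hdis h) (Finset.mem_image_of_mem _ hi.1)
      · unfold ps at h
        obtain ⟨j, hj, hij⟩ := Finset.mem_image.1 h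
        exact hi.2 (pw_inj a hij ▸ hj)
    have hone : ∀ i ∈ T \ H, VS y₀ z (S₀ ∪ ps a (insert i H)) ≤
        VS y₀ z S * Q * RpS y₀ (pw a i) S := by
      intro i hi
      have e : S₀ ∪ ps a (insert i H) = insert (pw a i) S := by
        unfold ps
        rw [Finset.image_insert, Finset.union_insert]
        rfl
      rw [e]
      exact (h1 (2 * K) y₀ z S (pw a i) hScard (by omega) (hmem i hi)).2.1
    have hsum : ∑ i ∈ T \ H, RpS y₀ (pw a i) S ≤
        (1 + η) * (((primorial y₀).totient : ℝ) / primorial y₀) * m := by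
      refine le_trans ?_ (hX₀ X hXa S a m hScard hSle hamH htm)
      rw [← Finset.sum_image (s := T \ H) (g := pw a) (f := fun e => RpS y₀ e S)
        (fun _ _ _ _ h => pw_inj a h)]
      refine Finset.sum_le_sum_of_subset_of_nonneg ?_ fun e _ _ => RpS_nonneg y₀ e S
      intro e he
      obtain ⟨i, hi, rfl⟩ := Finset.mem_image.1 he
      have hiT := hTA (Finset.mem_sdiff.1 hi).1
      unfold Ad at hiT
      rw [Finset.mem_filter] at hiT
      rw [Finset.mem_filter, Finset.mem_Ico]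
      refine ⟨?_, hiT.2⟩
      unfold pw
      have := i.2
      omega
    calc ∑ i ∈ T \ H, VS y₀ z (S₀ ∪ ps a (insert i H))
        ≤ ∑ i ∈ T \ H, VS y₀ z S * Q * RpS y₀ (pw a i) S := Finset.sum_le_sum hone
      _ = VS y₀ z S * Q * ∑ i ∈ T \ H, RpS y₀ (pw a i) S := by rw [Finset.mul_sum]
      _ ≤ VS y₀ z S * Q * ((1 + η) * (((primorial y₀).totient : ℝ) / primorial y₀) * m) :=
          mul_le_mul_of_nonneg_left hsum (mul_nonneg hV hQ0)
      _ = VS y₀ z S * ((1 + η) * (m * Me z)) := by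
          rw [← hQM]
          ring
  have hL0 : 0 ≤ (1 + η) * (m * Me z) := by positivity
  have hmain : ∀ r, r ≤ K → ∑ H ∈ T.powersetCard r, VS y₀ z (S₀ ∪ ps a H) ≤
      ((1 + η) * (m * Me z)) ^ r / (r ! : ℝ) * VS y₀ z S₀ := by
    intro r
    induction r with
    | zero =>
      intro _
      rw [Finset.powersetCard_zero, Finset.sum_singleton]
      have e : S₀ ∪ ps a (∅ : Finset (Fin m)) = S₀ := by
        unfold ps
        rw [Finset.image_empty, Finset.union_empty]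
      rw [e, pow_zero, Nat.factorial_zero, Nat.cast_one, div_one, one_mul]
    | succ r ih =>
      intro hr
      have h3 := ih (by omega)
      have h4 := double_count T r (fun H => VS y₀ z (S₀ ∪ ps a H))
      have h5 : ((r : ℝ) + 1) * ∑ H ∈ T.powersetCard (r + 1), VS y₀ z (S₀ ∪ ps a H) ≤
          (∑ H ∈ T.powersetCard r, VS y₀ z (S₀ ∪ ps a H)) * ((1 + η) * (m * Me z)) := by
        rw [h4, Finset.sum_mul]
        exact Finset.sum_le_sum fun H hH => hpart r hr H hH
      have h6 : ((r : ℝ) + 1) * ∑ H ∈ T.powersetCard (r + 1), VS y₀ z (S₀ ∪ ps a H) ≤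
          ((1 + η) * (m * Me z)) ^ r / (r ! : ℝ) * VS y₀ z S₀ * ((1 + η) * (m * Me z)) :=
        h5.trans (mul_le_mul_of_nonneg_right h3 hL0)
      have hr1 : (0 : ℝ) < (r : ℝ) + 1 := by positivity
      have h7 : ∑ H ∈ T.powersetCard (r + 1), VS y₀ z (S₀ ∪ ps a H) ≤
          ((1 + η) * (m * Me z)) ^ r / (r ! : ℝ) * VS y₀ z S₀ * ((1 + η) * (m * Me z)) /
            ((r : ℝ) + 1) := by
        rw [le_div_iff₀ hr1, mul_comm]
        exact h6
      refine h7.trans (le_of_eq ?_)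
      rw [Nat.factorial_succ, pow_succ]
      have hf : (r ! : ℝ) ≠ 0 := by exact_mod_cast (Nat.factorial_pos r).ne'
      push_cast
      field_simp
  exact hmain s hs

end Pool.Agent.H17.RP
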